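import Pool.Agent.helper12.TZ.SpecI

set_option autoImplicit false

namespace Pool.Agent.TZ

open Pool.Agent.helper58.DC Pool.Agent.DI Pool.Agent.GR Pool.Agent.OB

theorem IOP : IOP_stmt := by
  intro G E A _ _ _ _ _ X p _ hp hG
  have hA : Finite A := Finite.of_surjective X.proj X.proj_surjective
  refine ⟨⟨bot_le, IsPGroup.of_bot, fun x _ => ?_⟩, ?_⟩
  · rw [Subgroup.mem_normalizer_iff]
    intro h
    simp only [SetLike.mem_coe, Subgroup.mem_bot]
    constructor
    · rintro rfl
      group
    · intro h1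
      have h2 : x * h * x⁻¹ * x = 1 * x := by rw [h1]
      rw [inv_mul_cancel_right, one_mul] at h2
      exact mul_eq_left.1 h2
  · rintro Q ⟨-, hQp, hQn⟩ q hq
    rw [Subgroup.mem_bot]
    -- the image in the quotient is trivial
    have hproj : X.proj q = 1 := by
      obtain ⟨k, hk⟩ := hQp ⟨q, hq⟩
      have hk' : q ^ p ^ k = 1 := congrArg Subtype.val hk
      have h1 : orderOf (X.proj q) ∣ p ^ k := by
        apply orderOf_dvd_of_pow_eq_one
        rw [← map_pow, hk', map_one]
      have h2 : orderOf (X.proj q) ∣ Nat.card A := orderOf_dvd_natCard _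
      have hcop : Nat.Coprime (p ^ k) (Nat.card A) :=
        Nat.Coprime.pow_left k ((Nat.Prime.coprime_iff_not_dvd (Fact.out)).2 hp)
      have h3 : orderOf (X.proj q) = 1 := Nat.eq_one_of_dvd_coprimes hcop h1 h2
      exact orderOf_eq_one_iff.1 h3
    obtain ⟨g, rfl⟩ := (X.exact q).1 hproj
    have hmem : Q.comap X.inc ≤ ⊥ := by
      apply hG.2
      refine ⟨le_top, hQp.comap_of_injective X.inc X.inc_injective, fun x _ => ?_⟩
      rw [Subgroup.mem_normalizer_iff]
      intro h
      have h1 := (Subgroup.mem_normalizer_iff.1 (hQn (Subgroup.mem_top (X.inc x)))) (X.inc h)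
      simp only [SetLike.mem_coe, Subgroup.mem_comap, map_mul, map_inv]
      exact h1
    have hg : g = 1 := Subgroup.mem_bot.1 (hmem hq)
    rw [hg, map_one]

end Pool.Agent.TZ
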